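import Pool.Agent.helper93.TV.Spec1

/-!
# Row tv:G: the group of gauge transformations
-/

namespace Pool.Agent.helper93.TV

open BigOperators Finset Matrix
open scoped Kronecker

section

variable {I V : Type} [Fintype I] [DecidableEq I] [Fintype V] [DecidableEq V]

/-- `u` as a matrix. -/
private def G_M (u : V → V → ℂ) : Matrix V V ℂ := fun x y => u x y

private def G_U2 (u : V → V → ℂ) : Matrix (V × V) (V × V) ℂ := G_M u ⊗ₖ G_M u

private def G_U3 (u : V → V → ℂ) : Matrix (V × V × V) (V × V × V) ℂ := G_M u ⊗ₖ G_U2 u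

private lemma G_Fm_inj {F F' : V → V → V → V → ℂ} (h : Fm F = Fm F') : F = F' := by
  funext α γ β δ
  exact congrFun (congrFun h (α, γ)) (β, δ)

private lemma G_Fm_act (u : V → V → ℂ) (F : V → V → V → V → ℂ) :
    Fm (act u F) = G_U2 u * Fm F * (G_U2 u)ᴴ := by
  ext x y
  have h1 : Fm (act u F) x y = ∑ p : V × V, ∑ q : V × V,
      G_U2 u x p * Fm F p q * star (G_U2 u y q) := by
    simp only [Fm, act, G_U2, G_M, Matrix.kroneckerMap_apply, Fintype.sum_prod_type, star_mul']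
    refine Finset.sum_congr rfl fun a _ => Finset.sum_congr rfl fun b _ =>
      Finset.sum_congr rfl fun c _ => Finset.sum_congr rfl fun d _ => ?_
    ring
  rw [h1, Finset.sum_comm, Matrix.mul_apply]
  refine Finset.sum_congr rfl fun q _ => ?_
  rw [Matrix.mul_apply, Finset.sum_mul]
  rfl

/-- Gauge transformations as unitary matrices. -/
private lemma G_gau (D : FD I V) (u : V → V → ℂ) : D.Gau u ↔
    (∀ v w, u v w ≠ 0 → D.s1 v = D.s1 w ∧ D.s2 v = D.s2 w ∧ D.t v = D.t w) ∧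
      G_M u * (G_M u)ᴴ = 1 ∧ (G_M u)ᴴ * G_M u = 1 := by
  constructor
  · rintro ⟨h1, h2, h3⟩
    refine ⟨h1, ?_, ?_⟩
    · ext v w
      rw [Matrix.mul_apply, Matrix.one_apply]
      exact h2 v w
    · ext v w
      rw [Matrix.mul_apply, Matrix.one_apply]
      exact h3 v w
  · rintro ⟨h1, h2, h3⟩
    refine ⟨h1, ?_, ?_⟩
    · intro v w
      have := congrFun (congrFun h2 v) w
      rw [Matrix.mul_apply, Matrix.one_apply] at this
      exact this
    · intro v w
      have := congrFun (congrFun h3 v) w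
      rw [Matrix.mul_apply, Matrix.one_apply] at this
      exact this

private lemma G_U2_mul_conj (u : V → V → ℂ) (h : G_M u * (G_M u)ᴴ = 1) :
    G_U2 u * (G_U2 u)ᴴ = 1 := by
  unfold G_U2
  rw [Matrix.conjTranspose_kronecker, ← Matrix.mul_kronecker_mul, h, Matrix.one_kronecker_one]

private lemma G_U2_conj_mul (u : V → V → ℂ) (h : (G_M u)ᴴ * G_M u = 1) :
    (G_U2 u)ᴴ * G_U2 u = 1 := by
  unfold G_U2
  rw [Matrix.conjTranspose_kronecker, ← Matrix.mul_kronecker_mul, h, Matrix.one_kronecker_one]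

private lemma G_U3_mul_conj (u : V → V → ℂ) (h : G_M u * (G_M u)ᴴ = 1) :
    G_U3 u * (G_U3 u)ᴴ = 1 := by
  unfold G_U3
  rw [Matrix.conjTranspose_kronecker, ← Matrix.mul_kronecker_mul, h, G_U2_mul_conj u h,
    Matrix.one_kronecker_one]

private lemma G_U3_conj_mul (u : V → V → ℂ) (h : (G_M u)ᴴ * G_M u = 1) :
    (G_U3 u)ᴴ * G_U3 u = 1 := by
  unfold G_U3
  rw [Matrix.conjTranspose_kronecker, ← Matrix.mul_kronecker_mul, h, G_U2_conj_mul u h,
    Matrix.one_kronecker_one]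

/-- the identity -/
private def G_id : V → V → ℂ := fun x y => if x = y then 1 else 0

private lemma G_M_id : G_M (G_id : V → V → ℂ) = 1 := by
  ext x y
  rw [Matrix.one_apply]
  rfl

private lemma G_gau_id (D : FD I V) : D.Gau (G_id : V → V → ℂ) := by
  rw [G_gau]
  refine ⟨?_, ?_, ?_⟩
  · intro v w h
    unfold G_id at h
    have hvw : v = w := by
      by_contra hne
      rw [if_neg hne] at h
      exact h rfl
    subst hvw
    exact ⟨rfl, rfl, rfl⟩
  · rw [G_M_id, Matrix.conjTranspose_one, Matrix.one_mul]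
  · rw [G_M_id, Matrix.conjTranspose_one, Matrix.one_mul]

private lemma G_act_id (F : V → V → V → V → ℂ) : act G_id F = F := by
  apply G_Fm_inj
  rw [G_Fm_act]
  unfold G_U2
  rw [G_M_id, Matrix.one_kronecker_one, Matrix.conjTranspose_one, Matrix.one_mul, Matrix.mul_one]

private lemma G_M_comp (u v : V → V → ℂ) :
    G_M (fun x y => ∑ z, u x z * v z y) = G_M u * G_M v := by
  ext x y
  rw [Matrix.mul_apply]
  rfl

private lemma G_U2_comp (u v : V → V → ℂ) :
    G_U2 (fun x y => ∑ z, u x z * v z y) = G_U2 u * G_U2 v := by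
  unfold G_U2
  rw [G_M_comp, Matrix.mul_kronecker_mul]

private lemma G_act_comp (u v : V → V → ℂ) (F : V → V → V → V → ℂ) :
    act (fun x y => ∑ z, u x z * v z y) F = act u (act v F) := by
  apply G_Fm_inj
  rw [G_Fm_act, G_Fm_act, G_Fm_act, G_U2_comp, Matrix.conjTranspose_mul]
  simp only [Matrix.mul_assoc]

private lemma G_gau_comp (D : FD I V) {u v : V → V → ℂ} (hu : D.Gau u) (hv : D.Gau v) :
    D.Gau (fun x y => ∑ z, u x z * v z y) := by
  rw [G_gau] at hu hv ⊢
  obtain ⟨u1, u2, u3⟩ := hu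
  obtain ⟨v1, v2, v3⟩ := hv
  refine ⟨?_, ?_, ?_⟩
  · intro x y h
    obtain ⟨z, -, hz⟩ := Finset.exists_ne_zero_of_sum_ne_zero h
    have h1 := u1 x z (left_ne_zero_of_mul hz)
    have h2 := v1 z y (right_ne_zero_of_mul hz)
    exact ⟨h1.1.trans h2.1, h1.2.1.trans h2.2.1, h1.2.2.trans h2.2.2⟩
  · rw [G_M_comp, Matrix.conjTranspose_mul]
    calc G_M u * G_M v * ((G_M v)ᴴ * (G_M u)ᴴ) = G_M u * (G_M v * (G_M v)ᴴ) * (G_M u)ᴴ := by
          simp only [Matrix.mul_assoc]
      _ = 1 := by rw [v2, Matrix.mul_one, u2]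
  · rw [G_M_comp, Matrix.conjTranspose_mul]
    calc (G_M v)ᴴ * (G_M u)ᴴ * (G_M u * G_M v) = (G_M v)ᴴ * ((G_M u)ᴴ * G_M u) * G_M v := by
          simp only [Matrix.mul_assoc]
      _ = 1 := by rw [u3, Matrix.mul_one, v3]

private lemma G_M_inv (u : V → V → ℂ) : G_M (fun x y => star (u y x)) = (G_M u)ᴴ := by
  ext x y
  rfl

private lemma G_gau_inv (D : FD I V) {u : V → V → ℂ} (hu : D.Gau u) :
    D.Gau (fun x y => star (u y x)) := by
  rw [G_gau] at hu ⊢
  obtain ⟨u1, u2, u3⟩ := hu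
  refine ⟨?_, ?_, ?_⟩
  · intro x y h
    have h' : u y x ≠ 0 := by
      intro h0
      rw [h0, star_zero] at h
      exact h rfl
    have := u1 y x h'
    exact ⟨this.1.symm, this.2.1.symm, this.2.2.symm⟩
  · rw [G_M_inv, Matrix.conjTranspose_conjTranspose, u3]
  · rw [G_M_inv, Matrix.conjTranspose_conjTranspose, u2]

private lemma G_act_inv (D : FD I V) {u : V → V → ℂ} (hu : D.Gau u) (F : V → V → V → V → ℂ) :
    act (fun x y => star (u y x)) (act u F) = F := by
  rw [G_gau] at hu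
  rw [← G_act_comp]
  have h : (fun x y => ∑ z, star (u z x) * u z y) = (G_id : V → V → ℂ) := by
    funext x y
    have := congrFun (congrFun hu.2.2 x) y
    rw [Matrix.mul_apply, Matrix.one_apply] at this
    exact this
  have h' : (fun x y => ∑ z, (fun x y => star (u y x)) x z * u z y) = (G_id : V → V → ℂ) := h
  rw [h', G_act_id]

/-! ### the action preserves the unitary connections -/

private def G_P (D : FD I V) : Matrix (V × V) (V × V) ℂ :=
  fun x y => if x = y ∧ D.t x.1 = D.s1 x.2 then 1 else 0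

private def G_Q (D : FD I V) : Matrix (V × V) (V × V) ℂ :=
  fun x y => if x = y ∧ D.t x.1 = D.s2 x.2 then 1 else 0

private lemma G_conn (D : FD I V) (F : V → V → V → V → ℂ) : D.Conn univ F ↔
    (∀ l e e' l', F l e e' l' ≠ 0 → D.cp l e e' l') ∧
      Fm F * (Fm F)ᴴ = G_P D ∧ (Fm F)ᴴ * Fm F = G_Q D := by
  constructor
  · rintro ⟨h1, h2, h3⟩
    refine ⟨fun l e e' l' h => (h1 l e e' l' h).1, ?_, ?_⟩
    · ext x y
      rw [Matrix.mul_apply, Fintype.sum_prod_type]
      unfold G_P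
      by_cases hx : D.t x.1 = D.s1 x.2
      · have := h2 x.1 x.2 y.1 y.2 hx (mem_univ _) (mem_univ _)
        have e : (x.1 = y.1 ∧ x.2 = y.2) ↔ (x = y ∧ D.t x.1 = D.s1 x.2) := by
          constructor
          · rintro ⟨a, b⟩; exact ⟨Prod.ext a b, hx⟩
          · rintro ⟨a, -⟩; rw [a]; exact ⟨rfl, rfl⟩
        rw [if_congr e rfl rfl] at this
        exact this
      · rw [if_neg (fun h => hx h.2)]
        apply Finset.sum_eq_zero
        intro a _
        apply Finset.sum_eq_zero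
        intro b _
        have : Fm F x (a, b) = 0 := by
          by_contra hne
          exact hx (h1 _ _ _ _ hne).1.1
        rw [this, zero_mul]
    · ext x y
      rw [Matrix.mul_apply, Fintype.sum_prod_type]
      unfold G_Q
      by_cases hx : D.t x.1 = D.s2 x.2
      · have := h3 x.1 x.2 y.1 y.2 hx (mem_univ _) (mem_univ _)
        have e : (x.1 = y.1 ∧ x.2 = y.2) ↔ (x = y ∧ D.t x.1 = D.s2 x.2) := by
          constructor
          · rintro ⟨a, b⟩; exact ⟨Prod.ext a b, hx⟩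
          · rintro ⟨a, -⟩; rw [a]; exact ⟨rfl, rfl⟩
        rw [if_congr e rfl rfl] at this
        exact this
      · rw [if_neg (fun h => hx h.2)]
        apply Finset.sum_eq_zero
        intro a _
        apply Finset.sum_eq_zero
        intro b _
        have : Fm F (a, b) x = 0 := by
          by_contra hne
          exact hx (h1 _ _ _ _ hne).1.2.1
        rw [Matrix.conjTranspose_apply, this, star_zero, zero_mul]
  · rintro ⟨h1, h2, h3⟩
    refine ⟨fun l e e' l' h => ⟨h1 l e e' l' h, mem_univ _, mem_univ _⟩, ?_, ?_⟩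
    · intro l e l₁ e₁ ht _ _
      have := congrFun (congrFun h2 (l, e)) (l₁, e₁)
      rw [Matrix.mul_apply, Fintype.sum_prod_type] at this
      unfold G_P at this
      have e : ((l, e) = (l₁, e₁) ∧ D.t (l, e).1 = D.s1 (l, e).2) ↔ (l = l₁ ∧ e = e₁) := by
        constructor
        · rintro ⟨a, -⟩; exact Prod.mk.injEq _ _ _ _ ▸ a
        · rintro ⟨a, b⟩; exact ⟨by rw [a, b], ht⟩
      rw [if_congr e rfl rfl] at this
      exact this
    · intro e' l' e₁ l₁ ht _ _
      have := congrFun (congrFun h3 (e', l')) (e₁, l₁)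
      rw [Matrix.mul_apply, Fintype.sum_prod_type] at this
      unfold G_Q at this
      have e : ((e', l') = (e₁, l₁) ∧ D.t (e', l').1 = D.s2 (e', l').2) ↔
          (e' = e₁ ∧ l' = l₁) := by
        constructor
        · rintro ⟨a, -⟩; exact Prod.mk.injEq _ _ _ _ ▸ a
        · rintro ⟨a, b⟩; exact ⟨by rw [a, b], ht⟩
      rw [if_congr e rfl rfl] at this
      exact this

private def G_Dg (c : V × V → Prop) [DecidablePred c] : Matrix (V × V) (V × V) ℂ :=
  fun x y => if x = y ∧ c x then 1 else 0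

private lemma G_Dg_self (c : V × V → Prop) [DecidablePred c] (x : V × V) :
    G_Dg c x x = if c x then 1 else 0 := by
  unfold G_Dg
  by_cases h : c x
  · rw [if_pos ⟨rfl, h⟩, if_pos h]
  · rw [if_neg (fun h' => h h'.2), if_neg h]

private lemma G_Dg_ne (c : V × V → Prop) [DecidablePred c] {x y : V × V} (h : x ≠ y) :
    G_Dg c x y = 0 := by
  unfold G_Dg
  rw [if_neg (fun h' => h h'.1)]

/-- A diagonal condition on the types commutes with the gauge transformation. -/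
private lemma G_comm (D : FD I V) {u : V → V → ℂ} (c : V × V → Prop) [DecidablePred c]
    (hc : ∀ x y : V × V, D.s1 x.1 = D.s1 y.1 → D.s2 x.1 = D.s2 y.1 → D.t x.1 = D.t y.1 →
      D.s1 x.2 = D.s1 y.2 → D.s2 x.2 = D.s2 y.2 → D.t x.2 = D.t y.2 → (c x ↔ c y))
    (hu : ∀ v w, u v w ≠ 0 → D.s1 v = D.s1 w ∧ D.s2 v = D.s2 w ∧ D.t v = D.t w) :
    G_U2 u * G_Dg c = G_Dg c * G_U2 u := by
  ext x y
  rw [Matrix.mul_apply, Matrix.mul_apply, Finset.sum_eq_single y, Finset.sum_eq_single x]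
  · rw [G_Dg_self, G_Dg_self]
    by_cases h0 : G_U2 u x y = 0
    · rw [h0, zero_mul, mul_zero]
    · have h0' : u x.1 y.1 * u x.2 y.2 ≠ 0 := h0
      have h1 := hu _ _ (left_ne_zero_of_mul h0')
      have h2 := hu _ _ (right_ne_zero_of_mul h0')
      have h3 := hc x y h1.1 h1.2.1 h1.2.2 h2.1 h2.2.1 h2.2.2
      by_cases hx : c x
      · rw [if_pos (h3.1 hx), if_pos hx, mul_one, one_mul]
      · rw [if_neg (fun h => hx (h3.2 h)), if_neg hx, mul_zero, zero_mul]
  · intro z _ hz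
    rw [G_Dg_ne c hz.symm, zero_mul]
  · intro h; exact absurd (mem_univ _) h
  · intro z _ hz
    rw [G_Dg_ne c hz, mul_zero]
  · intro h; exact absurd (mem_univ _) h

private lemma G_conn_act (D : FD I V) {u : V → V → ℂ} (hu : D.Gau u) {F : V → V → V → V → ℂ}
    (hF : D.Conn univ F) : D.Conn univ (act u F) := by
  rw [G_gau] at hu
  obtain ⟨u1, u2, u3⟩ := hu
  rw [G_conn] at hF ⊢
  obtain ⟨h1, h2, h3⟩ := hF
  refine ⟨?_, ?_, ?_⟩
  · intro l e e' l' h
    unfold act at h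
    obtain ⟨a, -, ha⟩ := Finset.exists_ne_zero_of_sum_ne_zero h
    obtain ⟨b, -, hb⟩ := Finset.exists_ne_zero_of_sum_ne_zero ha
    obtain ⟨c, -, hcc⟩ := Finset.exists_ne_zero_of_sum_ne_zero hb
    obtain ⟨d, -, hd⟩ := Finset.exists_ne_zero_of_sum_ne_zero hcc
    have k5 := right_ne_zero_of_mul hd
    have k4 := right_ne_zero_of_mul (left_ne_zero_of_mul hd)
    have k3 := right_ne_zero_of_mul (left_ne_zero_of_mul (left_ne_zero_of_mul hd))
    have k2 := right_ne_zero_of_mul (left_ne_zero_of_mul (left_ne_zero_of_mul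
      (left_ne_zero_of_mul hd)))
    have k1 := left_ne_zero_of_mul (left_ne_zero_of_mul (left_ne_zero_of_mul
      (left_ne_zero_of_mul hd)))
    have t1 := u1 _ _ k1
    have t2 := u1 _ _ k2
    have t4 := u1 _ _ (star_ne_zero.1 k4)
    have t5 := u1 _ _ (star_ne_zero.1 k5)
    obtain ⟨c1, c2, c3, c4, c5, c6⟩ := h1 _ _ _ _ k3
    refine ⟨?_, ?_, ?_, ?_, ?_, ?_⟩
    · rw [t1.2.2, t2.1, c1]
    · rw [t4.2.2, t5.2.1, c2]
    · rw [t1.1, t5.1, c3]
    · rw [t1.2.1, t4.1, c4]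
    · rw [t2.2.1, t4.2.1, c5]
    · rw [t2.2.2, t5.2.2, c6]
  · rw [G_Fm_act, Matrix.conjTranspose_mul, Matrix.conjTranspose_mul,
      Matrix.conjTranspose_conjTranspose]
    have hcom := G_comm D (u := u) (fun x => D.t x.1 = D.s1 x.2)
      (by intro x y a1 a2 a3 a4 a5 a6; rw [a3, a4]) u1
    calc G_U2 u * Fm F * (G_U2 u)ᴴ * (G_U2 u * ((Fm F)ᴴ * (G_U2 u)ᴴ))
        = G_U2 u * Fm F * ((G_U2 u)ᴴ * G_U2 u) * ((Fm F)ᴴ * (G_U2 u)ᴴ) := by
          simp only [Matrix.mul_assoc]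
      _ = G_U2 u * (Fm F * (Fm F)ᴴ) * (G_U2 u)ᴴ := by
          rw [G_U2_conj_mul u u3, Matrix.mul_one]
          simp only [Matrix.mul_assoc]
      _ = G_P D * (G_U2 u * (G_U2 u)ᴴ) := by
          rw [h2]
          have : G_U2 u * G_P D = G_P D * G_U2 u := hcom
          rw [this, Matrix.mul_assoc]
      _ = G_P D := by rw [G_U2_mul_conj u u2, Matrix.mul_one]
  · rw [G_Fm_act, Matrix.conjTranspose_mul, Matrix.conjTranspose_mul,
      Matrix.conjTranspose_conjTranspose]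
    have hcom := G_comm D (u := u) (fun x => D.t x.1 = D.s2 x.2)
      (by intro x y a1 a2 a3 a4 a5 a6; rw [a3, a5]) u1
    calc G_U2 u * ((Fm F)ᴴ * (G_U2 u)ᴴ) * (G_U2 u * Fm F * (G_U2 u)ᴴ)
        = G_U2 u * (Fm F)ᴴ * ((G_U2 u)ᴴ * G_U2 u) * (Fm F * (G_U2 u)ᴴ) := by
          simp only [Matrix.mul_assoc]
      _ = G_U2 u * ((Fm F)ᴴ * Fm F) * (G_U2 u)ᴴ := by
          rw [G_U2_conj_mul u u3, Matrix.mul_one]
          simp only [Matrix.mul_assoc]
      _ = G_Q D * (G_U2 u * (G_U2 u)ᴴ) := by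
          rw [h3]
          have : G_U2 u * G_Q D = G_Q D * G_U2 u := hcom
          rw [this, Matrix.mul_assoc]
      _ = G_Q D := by rw [G_U2_mul_conj u u2, Matrix.mul_one]

/-! ### the pentagon -/

/-- `K` maps `(α, β, ν)` to `(β, δ, ζ)` with the entry `A (α, ν) (δ, ζ)`. -/
private def G_K (A : Matrix (V × V) (V × V) ℂ) : Matrix (V × V × V) (V × V × V) ℂ :=
  fun x y => if x.2.1 = y.1 then A (x.1, x.2.2) y.2 else 0

private lemma G_pent (F : V → V → V → V → ℂ) : Pent F ↔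
    L23 (Fm F) * G_K (Fm F) = L12 (Fm F) * L23 (Fm F) * L12 (Fm F) := by
  have key1 : ∀ α γ ε β δ ζ, (L23 (Fm F) * G_K (Fm F)) (α, γ, ε) (β, δ, ζ) =
      ∑ ν, F γ ε β ν * F α ν δ ζ := by
    intro α γ ε β δ ζ
    rw [Matrix.mul_apply, Fintype.sum_prod_type, Finset.sum_eq_single α]
    · rw [Fintype.sum_prod_type, Finset.sum_eq_single β]
      · refine Finset.sum_congr rfl fun ν _ => ?_
        simp [L23, G_K, Fm]
      · intro b _ hb
        apply Finset.sum_eq_zero
        intro c _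
        have : G_K (Fm F) (α, b, c) (β, δ, ζ) = 0 := by simp [G_K, hb]
        rw [this, mul_zero]
      · intro h; exact absurd (mem_univ _) h
    · intro a _ ha
      apply Finset.sum_eq_zero
      intro b _
      have : L23 (Fm F) (α, γ, ε) (a, b) = 0 := by simp [L23, ha.symm]
      rw [this, zero_mul]
    · intro h; exact absurd (mem_univ _) h
  have key2 : ∀ α γ ε β δ ζ, (L12 (Fm F) * L23 (Fm F) * L12 (Fm F)) (α, γ, ε) (β, δ, ζ) =
      ∑ μ, ∑ ρ, ∑ σ, F α γ μ ρ * F ρ ε σ ζ * F μ σ β δ := by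
    intro α γ ε β δ ζ
    have h1 : ∀ μ σ ζ', (L12 (Fm F) * L23 (Fm F)) (α, γ, ε) (μ, σ, ζ') =
        ∑ ρ, F α γ μ ρ * F ρ ε σ ζ' := by
      intro μ σ ζ'
      rw [Matrix.mul_apply, Fintype.sum_prod_type, Finset.sum_eq_single μ]
      · rw [Fintype.sum_prod_type]
        refine Finset.sum_congr rfl fun ρ _ => ?_
        rw [Finset.sum_eq_single ε]
        · simp [L12, L23, Fm]
        · intro b _ hb
          have : L12 (Fm F) (α, γ, ε) (μ, ρ, b) = 0 := by simp [L12, hb.symm]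
          rw [this, zero_mul]
        · intro h; exact absurd (mem_univ _) h
      · intro a _ ha
        apply Finset.sum_eq_zero
        intro b _
        have : L23 (Fm F) (a, b) (μ, σ, ζ') = 0 := by simp [L23, ha]
        rw [this, mul_zero]
      · intro h; exact absurd (mem_univ _) h
    rw [Matrix.mul_apply, Fintype.sum_prod_type]
    refine Finset.sum_congr rfl fun μ _ => ?_
    rw [Fintype.sum_prod_type, Finset.sum_comm]
    rw [Finset.sum_eq_single ζ]
    · rw [Finset.sum_comm]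
      refine Finset.sum_congr rfl fun σ _ => ?_
      rw [h1, Finset.sum_mul]
      refine Finset.sum_congr rfl fun ρ _ => ?_
      simp [L12, Fm]
    · intro b _ hb
      apply Finset.sum_eq_zero
      intro c _
      have : L12 (Fm F) (μ, c, b) (β, δ, ζ) = 0 := by simp [L12, hb]
      rw [this, mul_zero]
    · intro h; exact absurd (mem_univ _) h
  constructor
  · intro h
    ext ⟨α, γ, ε⟩ ⟨β, δ, ζ⟩
    rw [key1, key2]
    exact h α γ ε β δ ζ
  · intro h α γ ε β δ ζ
    rw [← key1, ← key2, h]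

private lemma G_L23 (u : V → V → ℂ) (h : G_M u * (G_M u)ᴴ = 1)
    (A : Matrix (V × V) (V × V) ℂ) :
    L23 (G_U2 u * A * (G_U2 u)ᴴ) = G_U3 u * L23 A * (G_U3 u)ᴴ := by
  have e : ∀ B : Matrix (V × V) (V × V) ℂ, L23 B = (1 : Matrix V V ℂ) ⊗ₖ B := by
    intro B
    ext x y
    rw [Matrix.kroneckerMap_apply, Matrix.one_apply]
    unfold L23
    split_ifs
    · rw [one_mul]
    · rw [zero_mul]
  rw [e, e]
  unfold G_U3
  rw [Matrix.conjTranspose_kronecker, ← Matrix.mul_kronecker_mul, ← Matrix.mul_kronecker_mul,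
    Matrix.mul_one, h]

private lemma G_L12 (u : V → V → ℂ) (h : G_M u * (G_M u)ᴴ = 1)
    (A : Matrix (V × V) (V × V) ℂ) :
    L12 (G_U2 u * A * (G_U2 u)ᴴ) = G_U3 u * L12 A * (G_U3 u)ᴴ := by
  have e : ∀ B : Matrix (V × V) (V × V) ℂ, L12 B =
      (B ⊗ₖ (1 : Matrix V V ℂ)).submatrix (Equiv.prodAssoc V V V).symm
        (Equiv.prodAssoc V V V).symm := by
    intro B
    ext x y
    rw [Matrix.submatrix_apply, Matrix.kroneckerMap_apply, Matrix.one_apply]
    unfold L12
    simp only [Equiv.prodAssoc_symm_apply]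
    split_ifs
    · rw [mul_one]
    · rw [mul_zero]
  have e3 : G_U3 u = (G_U2 u ⊗ₖ G_M u).submatrix (Equiv.prodAssoc V V V).symm
        (Equiv.prodAssoc V V V).symm := by
    ext x y
    simp only [G_U3, G_U2, Matrix.submatrix_apply, Matrix.kroneckerMap_apply,
      Equiv.prodAssoc_symm_apply]
    ring
  rw [e, e, e3, Matrix.conjTranspose_submatrix, Matrix.submatrix_mul_equiv,
    Matrix.submatrix_mul_equiv, Matrix.conjTranspose_kronecker, ← Matrix.mul_kronecker_mul,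
    ← Matrix.mul_kronecker_mul, Matrix.mul_one, h]

private lemma G_KK (u : V → V → ℂ) (h : G_M u * (G_M u)ᴴ = 1)
    (A : Matrix (V × V) (V × V) ℂ) :
    G_K (G_U2 u * A * (G_U2 u)ᴴ) = G_U3 u * G_K A * (G_U3 u)ᴴ := by
  let π : V × V × V ≃ V × V × V :=
    { toFun := fun x => (x.2.1, x.1, x.2.2)
      invFun := fun x => (x.2.1, x.1, x.2.2)
      left_inv := fun x => rfl
      right_inv := fun x => rfl }
  have e : ∀ B : Matrix (V × V) (V × V) ℂ, G_K B =
      ((1 : Matrix V V ℂ) ⊗ₖ B).submatrix π (Equiv.refl _) := by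
    intro B
    ext x y
    rw [Matrix.submatrix_apply, Matrix.kroneckerMap_apply, Matrix.one_apply]
    unfold G_K
    change _ = (if x.2.1 = y.1 then (1 : ℂ) else 0) * B (x.1, x.2.2) y.2
    split_ifs
    · rw [one_mul]
    · rw [zero_mul]
  have e3 : G_U3 u = (G_U3 u).submatrix π π := by
    ext x y
    change u x.1 y.1 * (u x.2.1 y.2.1 * u x.2.2 y.2.2) =
      u x.2.1 y.2.1 * (u x.1 y.1 * u x.2.2 y.2.2)
    ring
  have e4 : (G_U3 u)ᴴ = ((G_U3 u)ᴴ).submatrix (Equiv.refl _) (Equiv.refl _) := by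
    ext x y; rfl
  rw [e, e]
  conv_rhs => rw [e4]
  conv_rhs =>
    enter [1, 1]
    rw [e3]
  rw [Matrix.submatrix_mul_equiv, Matrix.submatrix_mul_equiv]
  unfold G_U3
  rw [Matrix.conjTranspose_kronecker, ← Matrix.mul_kronecker_mul, ← Matrix.mul_kronecker_mul,
    Matrix.mul_one, h]

private lemma G_pent_act {u : V → V → ℂ} (h1 : G_M u * (G_M u)ᴴ = 1)
    (h2 : (G_M u)ᴴ * G_M u = 1) {F : V → V → V → V → ℂ} (hF : Pent F) : Pent (act u F) := by
  rw [G_pent] at hF ⊢
  rw [G_Fm_act, G_L23 u h1, G_L12 u h1, G_KK u h1]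
  have hU := G_U3_conj_mul u h2
  calc G_U3 u * L23 (Fm F) * (G_U3 u)ᴴ * (G_U3 u * G_K (Fm F) * (G_U3 u)ᴴ)
      = G_U3 u * L23 (Fm F) * ((G_U3 u)ᴴ * G_U3 u) * G_K (Fm F) * (G_U3 u)ᴴ := by
        simp only [Matrix.mul_assoc]
    _ = G_U3 u * (L23 (Fm F) * G_K (Fm F)) * (G_U3 u)ᴴ := by
        rw [hU, Matrix.mul_one]
        simp only [Matrix.mul_assoc]
    _ = G_U3 u * (L12 (Fm F) * L23 (Fm F) * L12 (Fm F)) * (G_U3 u)ᴴ := by rw [hF]
    _ = G_U3 u * L12 (Fm F) * ((G_U3 u)ᴴ * G_U3 u) * L23 (Fm F) * ((G_U3 u)ᴴ * G_U3 u) *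
        L12 (Fm F) * (G_U3 u)ᴴ := by
        rw [hU, Matrix.mul_one, Matrix.mul_one]
        simp only [Matrix.mul_assoc]
    _ = _ := by simp only [Matrix.mul_assoc]

end

/-- Row tv:G. -/
theorem G : G_stmt := by
  intro I V _ _ _ _ D
  refine ⟨?_, ?_, ?_, ?_, ?_, ?_⟩
  · intro F
    exact ⟨G_id, G_gau_id D, (G_act_id F).symm⟩
  · rintro F F' ⟨u, hu, rfl⟩
    exact ⟨_, G_gau_inv D hu, (G_act_inv D hu F).symm⟩
  · rintro F F' F'' ⟨u, hu, rfl⟩ ⟨v, hv, rfl⟩
    exact ⟨_, G_gau_comp D hv hu, (G_act_comp v u F).symm⟩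
  · intro u v hu hv
    exact ⟨G_gau_comp D hu hv, fun F => G_act_comp u v F⟩
  · intro u hu
    exact ⟨G_gau_inv D hu, fun F _ => G_act_inv D hu F⟩
  · intro u F hu hF
    have hu' := (G_gau D u).1 hu
    exact ⟨G_conn_act D hu hF.conn, G_pent_act hu'.2.1 hu'.2.2 hF.pent⟩

end Pool.Agent.helper93.TV
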