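import Pool.Agent.helper93.TV.Spec2

/-!
# Row tv:ML: the elementary Milnor bound
-/

namespace Pool.Agent.helper93.TV

open Finset Metric

section

variable {ι : Type} [Fintype ι] [DecidableEq ι]

/-- The derivative of a polynomial function. -/
private lemma ML_fderiv (f : MvPolynomial ι ℝ) (x : ι → ℝ) :
    HasFDerivAt (fun y : ι → ℝ => MvPolynomial.eval y f)
      (∑ i, MvPolynomial.eval x (MvPolynomial.pderiv i f) •
        (ContinuousLinearMap.proj i : (ι → ℝ) →L[ℝ] ℝ)) x := by
  induction f using MvPolynomial.induction_on with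
  | C a =>
    have h : (∑ i, MvPolynomial.eval x (MvPolynomial.pderiv i (MvPolynomial.C a)) •
        (ContinuousLinearMap.proj i : (ι → ℝ) →L[ℝ] ℝ)) = 0 := by
      apply Finset.sum_eq_zero
      intro i _
      rw [MvPolynomial.pderiv_C, map_zero, zero_smul]
    rw [h]
    have h2 : (fun y : ι → ℝ => MvPolynomial.eval y (MvPolynomial.C a)) = fun _ => a := by
      funext y
      rw [MvPolynomial.eval_C]
    rw [h2]
    exact hasFDerivAt_const a x
  | add p q hp hq =>
    have h := hp.add hq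
    have e1 : (fun y : ι → ℝ => MvPolynomial.eval y (p + q)) =
        (fun y => MvPolynomial.eval y p) + fun y => MvPolynomial.eval y q := by
      funext y
      simp
    have e2 : (∑ i, MvPolynomial.eval x (MvPolynomial.pderiv i (p + q)) •
        (ContinuousLinearMap.proj i : (ι → ℝ) →L[ℝ] ℝ)) =
        (∑ i, MvPolynomial.eval x (MvPolynomial.pderiv i p) •
        (ContinuousLinearMap.proj i : (ι → ℝ) →L[ℝ] ℝ)) +
        (∑ i, MvPolynomial.eval x (MvPolynomial.pderiv i q) •
        (ContinuousLinearMap.proj i : (ι → ℝ) →L[ℝ] ℝ)) := by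
      rw [← Finset.sum_add_distrib]
      refine Finset.sum_congr rfl fun i _ => ?_
      rw [map_add, map_add, add_smul]
    rw [e1, e2]
    exact h
  | mul_X p n hp =>
    have h := hp.mul (hasFDerivAt_apply n x)
    have e1 : (fun y : ι → ℝ => MvPolynomial.eval y (p * MvPolynomial.X n)) =
        fun y => MvPolynomial.eval y p * y n := by
      funext y
      simp
    have e2 : (∑ i, MvPolynomial.eval x (MvPolynomial.pderiv i (p * MvPolynomial.X n)) •
        (ContinuousLinearMap.proj i : (ι → ℝ) →L[ℝ] ℝ)) =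
        MvPolynomial.eval x p • (ContinuousLinearMap.proj n : (ι → ℝ) →L[ℝ] ℝ) +
        x n • (∑ i, MvPolynomial.eval x (MvPolynomial.pderiv i p) •
        (ContinuousLinearMap.proj i : (ι → ℝ) →L[ℝ] ℝ)) := by
      have e3 : MvPolynomial.eval x p • (ContinuousLinearMap.proj n : (ι → ℝ) →L[ℝ] ℝ) =
          ∑ i, (if i = n then MvPolynomial.eval x p else 0) •
            (ContinuousLinearMap.proj i : (ι → ℝ) →L[ℝ] ℝ) := by
        rw [Finset.sum_eq_single n]
        · rw [if_pos rfl]
        · intro i _ hi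
          rw [if_neg hi, zero_smul]
        · intro h; exact absurd (Finset.mem_univ _) h
      rw [e3, Finset.smul_sum, ← Finset.sum_add_distrib]
      refine Finset.sum_congr rfl fun i _ => ?_
      rw [smul_smul, ← add_smul]
      congr 1
      rw [MvPolynomial.pderiv_mul, MvPolynomial.pderiv_X]
      by_cases hi : i = n
      · subst hi
        simp
        ring
      · rw [if_neg hi]
        simp [Ne.symm hi]
        ring
    rw [e1, e2]
    exact h

private lemma ML_cont (f : MvPolynomial ι ℝ) :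
    Continuous (fun y : ι → ℝ => MvPolynomial.eval y f) :=
  continuous_iff_continuousAt.2 fun x => (ML_fderiv f x).continuousAt

private lemma ML_deg (f : MvPolynomial ι ℝ) (i : ι) :
    (MvPolynomial.pderiv i f).totalDegree ≤ f.totalDegree := by
  classical
  unfold MvPolynomial.totalDegree
  apply Finset.sup_le
  intro m hm
  rw [MvPolynomial.mem_support_iff, MvPolynomial.coeff_pderiv] at hm
  have h1 : m + Finsupp.single i 1 ∈ f.support := by
    rw [MvPolynomial.mem_support_iff]
    exact left_ne_zero_of_mul hm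
  have h2 := MvPolynomial.le_totalDegree h1
  refine le_trans ?_ h2
  rw [Finsupp.sum_add_index' (fun _ => rfl) (fun _ _ _ => rfl)]
  exact Nat.le_add_right _ _

/-- The Hessian. -/
private noncomputable def ML_H (f : MvPolynomial ι ℝ) (x : ι → ℝ) : Matrix ι ι ℝ :=
  Matrix.of fun i j => MvPolynomial.eval x (MvPolynomial.pderiv j (MvPolynomial.pderiv i f))

/-- The gradient. -/
private noncomputable def ML_G (f : MvPolynomial ι ℝ) (x : ι → ℝ) : ι → ℝ :=
  fun i => MvPolynomial.eval x (MvPolynomial.pderiv i f)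

private noncomputable def ML_L (f : MvPolynomial ι ℝ) (x : ι → ℝ) : (ι → ℝ) →L[ℝ] (ι → ℝ) :=
  ContinuousLinearMap.pi fun i => ∑ j, MvPolynomial.eval x
    (MvPolynomial.pderiv j (MvPolynomial.pderiv i f)) •
      (ContinuousLinearMap.proj j : (ι → ℝ) →L[ℝ] ℝ)

private lemma ML_hasG (f : MvPolynomial ι ℝ) (x : ι → ℝ) :
    HasFDerivAt (ML_G f) (ML_L f x) x := by
  rw [hasFDerivAt_pi']
  intro i
  exact ML_fderiv (MvPolynomial.pderiv i f) x

private lemma ML_det (f : MvPolynomial ι ℝ) (x : ι → ℝ) : (ML_L f x).det = (ML_H f x).det := by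
  rw [← LinearMap.det_toLin']
  unfold ContinuousLinearMap.det
  congr 1
  apply LinearMap.ext
  intro v
  funext i
  rw [Matrix.toLin'_apply]
  simp [ML_L, ML_H, Matrix.mulVec, dotProduct]

/-- Sard: almost every small vector is a regular value of the gradient. -/
private lemma ML_sard (f : MvPolynomial ι ℝ) (V : Set (ι → ℝ)) (hV : V ∈ nhds (0 : ι → ℝ)) :
    ∃ b ∈ V, ∀ x, ML_G f x = b → (ML_H f x).det ≠ 0 := by
  have h0 : (MeasureTheory.volume : MeasureTheory.Measure (ι → ℝ))
      (ML_G f '' {x | (ML_H f x).det = 0}) = 0 := by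
    apply MeasureTheory.addHaar_image_eq_zero_of_det_fderivWithin_eq_zero (f' := ML_L f)
    · intro x _
      exact (ML_hasG f x).hasFDerivWithinAt
    · intro x hx
      rw [ML_det]
      exact hx
  have h1 : 0 < (MeasureTheory.volume : MeasureTheory.Measure (ι → ℝ)) V :=
    MeasureTheory.Measure.measure_pos_of_mem_nhds _ hV
  have h2 : ¬ V ⊆ ML_G f '' {x | (ML_H f x).det = 0} := by
    intro hsub
    have := MeasureTheory.measure_mono (μ := (MeasureTheory.volume :
      MeasureTheory.Measure (ι → ℝ))) hsub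
    rw [h0] at this
    exact absurd h1 (not_lt.2 this)
  obtain ⟨b, hbV, hb⟩ := Set.not_subset.1 h2
  refine ⟨b, hbV, ?_⟩
  intro x hx hdet
  exact hb ⟨x, hdet, hx⟩

/-- The linear function. -/
private def ML_lin (b x : ι → ℝ) : ℝ := ∑ j, b j * x j

private lemma ML_lin_small (K : Set (ι → ℝ)) (hK : Bornology.IsBounded K) (ε : ℝ) (hε : 0 < ε) :
    ∀ᶠ b in nhds (0 : ι → ℝ), ∀ x ∈ K, |ML_lin b x| < ε := by
  obtain ⟨R, hR⟩ := hK.exists_norm_le
  have hR0 : ∀ x ∈ K, ‖x‖ ≤ max R 0 := fun x hx => (hR x hx).trans (le_max_left _ _)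
  set M : ℝ := (Fintype.card ι : ℝ) * max R 0 + 1 with hM
  have hMpos : 0 < M := by
    have : (0 : ℝ) ≤ (Fintype.card ι : ℝ) * max R 0 :=
      mul_nonneg (Nat.cast_nonneg _) (le_max_right _ _)
    linarith
  have hball : Metric.ball (0 : ι → ℝ) (ε / M) ∈ nhds (0 : ι → ℝ) :=
    Metric.ball_mem_nhds _ (div_pos hε hMpos)
  filter_upwards [hball] with b hb x hx
  rw [mem_ball_zero_iff] at hb
  have h1 : |ML_lin b x| ≤ ∑ j : ι, ‖b‖ * max R 0 := by
    unfold ML_lin
    refine (Finset.abs_sum_le_sum_abs _ _).trans (Finset.sum_le_sum fun j _ => ?_)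
    rw [abs_mul]
    have e1 : |b j| ≤ ‖b‖ := by
      rw [← Real.norm_eq_abs]; exact norm_le_pi_norm b j
    have e2 : |x j| ≤ max R 0 := by
      rw [← Real.norm_eq_abs]; exact (norm_le_pi_norm x j).trans (hR0 x hx)
    exact mul_le_mul e1 e2 (abs_nonneg _) (norm_nonneg _)
  rw [Finset.sum_const, nsmul_eq_mul, Finset.card_univ] at h1
  have h2 : ‖b‖ * M < ε := (lt_div_iff₀ hMpos).1 hb
  have h3 : (Fintype.card ι : ℝ) * (‖b‖ * max R 0) ≤ ‖b‖ * M := by
    rw [hM]
    nlinarith [norm_nonneg b]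
  linarith

/-- A critical point in a neighbourhood of `Ω`. -/
private lemma ML_crit (f : MvPolynomial ι ℝ) (K U W : Set (ι → ℝ)) (hK : IsCompact K)
    (hU : IsOpen U) (hUK : U ⊆ K) (hWU : W ⊆ U) (hW : W.Nonempty)
    (hWz : ∀ x ∈ W, MvPolynomial.eval x f = 0) (ε : ℝ)
    (hbd : ∀ x ∈ K \ U, ε ≤ MvPolynomial.eval x f) (b : ι → ℝ)
    (hb : ∀ x ∈ K, |ML_lin b x| < ε / 3) : ∃ y ∈ U, ML_G f y = b := by
  obtain ⟨w, hw⟩ := hW
  have hwK : w ∈ K := hUK (hWU hw)
  have hlinc : Continuous (fun x : ι → ℝ => ML_lin b x) := by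
    unfold ML_lin
    fun_prop
  have hcont : ContinuousOn (fun x => MvPolynomial.eval x f - ML_lin b x) K :=
    ((ML_cont f).sub hlinc).continuousOn
  obtain ⟨y, hyK, hy⟩ := hK.exists_isMinOn ⟨w, hwK⟩ hcont
  have hyw : MvPolynomial.eval y f - ML_lin b y ≤ MvPolynomial.eval w f - ML_lin b w := hy hwK
  rw [hWz w hw] at hyw
  have h1 := hb w hwK
  have h2 := hb y hyK
  rw [abs_lt] at h1 h2
  have hyU : y ∈ U := by
    by_contra hyU
    have h3 := hbd y ⟨hyK, hyU⟩
    linarith
  refine ⟨y, hyU, ?_⟩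
  have hloc : IsLocalMin (fun x => MvPolynomial.eval x f - ML_lin b x) y := by
    have : U ∈ nhds y := hU.mem_nhds hyU
    filter_upwards [this] with x hx
    exact hy (hUK hx)
  have hlin : HasFDerivAt (fun x : ι → ℝ => ML_lin b x)
      (∑ i, b i • (ContinuousLinearMap.proj i : (ι → ℝ) →L[ℝ] ℝ)) y := by
    have h : (fun x : ι → ℝ => ML_lin b x) =
        fun x => (∑ i, b i • (ContinuousLinearMap.proj i : (ι → ℝ) →L[ℝ] ℝ)) x := by
      funext x
      simp [ML_lin]
    rw [h]
    exact ContinuousLinearMap.hasFDerivAt _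
  have hd := (ML_fderiv f y).sub hlin
  have h0 := hloc.hasFDerivAt_eq_zero hd
  funext i
  have h4 := congrArg (fun L : (ι → ℝ) →L[ℝ] ℝ => L (Pi.single i 1)) h0
  simp [Pi.single_apply] at h4
  unfold ML_G
  linarith

/-- The topological part: all critical points are near the pieces. -/
private lemma ML_nbhd (Z : Set (ι → ℝ)) (n : ℕ) (Ω : Fin n → Set (ι → ℝ))
    (hZ : Bornology.IsBounded Z) (hsub : ∀ i, Ω i ⊆ Z) (hdis : ∀ i j, i ≠ j → Disjoint (Ω i) (Ω j))
    (hcl : ∀ i, IsClosed (Ω i)) (hcl' : ∀ i, IsClosed (Z \ Ω i)) :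
    ∃ ρ : ℝ, 0 < ρ ∧ (∀ i, Disjoint (cthickening ρ (Ω i)) (Z \ Ω i)) ∧
      ∀ i j, i ≠ j → Disjoint (thickening ρ (Ω i)) (thickening ρ (Ω j)) := by
  have hc : ∀ i, IsCompact (Ω i) := fun i =>
    Metric.isCompact_of_isClosed_isBounded (hcl i) (hZ.subset (hsub i))
  have hδ : ∀ i, ∃ δ : ℝ, 0 < δ ∧
      Disjoint (cthickening δ (Ω i)) (cthickening δ (Z \ Ω i)) := fun i =>
    Disjoint.exists_cthickenings disjoint_sdiff_self_right (hc i) (hcl' i)
  choose δ hδ0 hδ using hδ
  have hev : ∀ᶠ ρ in nhdsWithin (0 : ℝ) (Set.Ioi 0), ∀ i, ρ < δ i := by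
    rw [Filter.eventually_all]
    intro i
    exact nhdsWithin_le_nhds (Iio_mem_nhds (hδ0 i))
  obtain ⟨ρ, hρ1, hρ0⟩ := (hev.and self_mem_nhdsWithin).exists
  have hρ0' : 0 < ρ := hρ0
  refine ⟨ρ, hρ0', ?_, ?_⟩
  · intro i
    exact (hδ i).mono (cthickening_mono (hρ1 i).le _) (self_subset_cthickening _)
  · intro i j hij
    have h1 : Ω j ⊆ Z \ Ω i := fun x hx => ⟨hsub j hx, fun hx' =>
      (Set.disjoint_left.1 (hdis i j hij)) hx' hx⟩
    refine (hδ i).mono ?_ ?_
    · exact (thickening_subset_cthickening _ _).trans (cthickening_mono (hρ1 i).le _)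
    · exact (thickening_subset_cthickening _ _).trans
        ((cthickening_mono (hρ1 i).le _).trans (cthickening_subset_of_subset _ h1))

end

/-- Row ML. -/
theorem ML : ML_stmt := by
  classical
  intro _ hBZ ι _ _ f d hfd hf0 hbdd n Ω hne hsub hdis hcl hcl'
  set Z : Set (ι → ℝ) := {x | MvPolynomial.eval x f = 0} with hZ
  obtain ⟨ρ, hρ, hρ1, hρ2⟩ := ML_nbhd Z n Ω hbdd hsub hdis hcl hcl'
  have hc : ∀ i, IsCompact (Ω i) := fun i =>
    Metric.isCompact_of_isClosed_isBounded (hcl i) (hbdd.subset (hsub i))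
  have hK : ∀ i, IsCompact (cthickening ρ (Ω i)) := fun i => (hc i).cthickening
  have hε : ∀ i, ∃ ε : ℝ, 0 < ε ∧ ∀ x ∈ cthickening ρ (Ω i) \ thickening ρ (Ω i),
      ε ≤ MvPolynomial.eval x f := by
    intro i
    have hS : IsCompact (cthickening ρ (Ω i) \ thickening ρ (Ω i)) :=
      (hK i).diff isOpen_thickening
    apply hS.exists_forall_le' (ML_cont f).continuousOn
    intro x hx
    have hx0 : MvPolynomial.eval x f ≠ 0 := by
      intro h0
      have hxZ : x ∈ Z := h0
      by_cases hxΩ : x ∈ Ω i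
      · exact hx.2 (self_subset_thickening hρ _ hxΩ)
      · exact (Set.disjoint_left.1 (hρ1 i)) hx.1 ⟨hxZ, hxΩ⟩
    exact lt_of_le_of_ne (hf0 x) (Ne.symm hx0)
  choose ε hε0 hε using hε
  have hev : ∀ᶠ b in nhds (0 : ι → ℝ), ∀ i, ∀ x ∈ cthickening ρ (Ω i), |ML_lin b x| < ε i / 3 := by
    rw [Filter.eventually_all]
    intro i
    exact ML_lin_small _ (hK i).isBounded _ (by have := hε0 i; positivity)
  obtain ⟨b, hbV, hb⟩ := ML_sard f _ hev
  have hy : ∀ i, ∃ y ∈ thickening ρ (Ω i), ML_G f y = b := fun i =>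
    ML_crit f _ _ (Ω i) (hK i) isOpen_thickening (thickening_subset_cthickening _ _)
      (self_subset_thickening hρ _) (hne i) (fun x hx => hsub i hx) (ε i) (hε i) b (hbV i)
  choose y hyU hyG using hy
  have hinj : Function.Injective y := by
    intro i j hij
    by_contra hne'
    have h1 := hyU i
    have h2 := hyU j
    rw [← hij] at h2
    exact (Set.disjoint_left.1 (hρ2 i j hne')) h1 h2
  have hcard : (Finset.univ.image y).card = n := by
    rw [Finset.card_image_of_injective _ hinj, Finset.card_univ, Fintype.card_fin]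
  have hfin := hBZ ι (fun i => MvPolynomial.pderiv i f - MvPolynomial.C (b i)) d
    (Finset.univ.image y) ?_ ?_ ?_
  · rw [hcard] at hfin
    exact hfin
  · intro i
    refine (MvPolynomial.totalDegree_sub _ _).trans (max_le ((ML_deg f i).trans hfd) ?_)
    rw [MvPolynomial.totalDegree_C]
    exact Nat.zero_le _
  · intro x hx i
    obtain ⟨k, -, rfl⟩ := Finset.mem_image.1 hx
    have := congrFun (hyG k) i
    unfold ML_G at this
    rw [map_sub, MvPolynomial.eval_C, this, sub_self]
  · intro x hx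
    obtain ⟨k, -, rfl⟩ := Finset.mem_image.1 hx
    have := hb (y k) (hyG k)
    have e : (Matrix.of fun i j => MvPolynomial.eval (y k) (MvPolynomial.pderiv j
        (MvPolynomial.pderiv i f - MvPolynomial.C (b i)))) = ML_H f (y k) := by
      ext i j
      unfold ML_H
      rw [Matrix.of_apply, Matrix.of_apply, map_sub, MvPolynomial.pderiv_C, sub_zero]
    rw [e]
    exact this

end Pool.Agent.helper93.TV
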